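import Mathlib

/-!
# There are no `Λ`-singular functions for a proper `Λ`-sequence
-/

open Filter Topology Finset
open scoped ENNReal

namespace Pool.Agent.Results.MP_2872ab_an.NoSingularFunctions

/-- A `Λ`-sequence (indexed from `0`). -/
structure IsLambda (l : ℕ → ℝ) : Prop where
  mono : Monotone l
  pos : ∀ i, 0 < l i
  div : ¬ Summable fun i => 1 / l i

/-- A proper `Λ`-sequence. -/
def IsProper (l : ℕ → ℝ) : Prop := IsLambda l ∧ Tendsto l atTop atTop

/-- A finite family of non-overlapping closed subintervals `[s i, t i]` of `[a, b]`, indexed so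
that the numbers `|f (I i)|` are non-increasing. -/
structure IsFamily (a b : ℝ) (f : ℝ → ℝ) {n : ℕ} (s t : Fin n → ℝ) : Prop where
  sub : ∀ i, a ≤ s i ∧ s i < t i ∧ t i ≤ b
  nonoverlap : ∀ i j, i ≠ j → t i ≤ s j ∨ t j ≤ s i
  sorted : Antitone fun i => |f (t i) - f (s i)|

/-- `σ_Λ(f, 𝓘)` -/
noncomputable def sigma (l : ℕ → ℝ) (f : ℝ → ℝ) {n : ℕ} (s t : Fin n → ℝ) : ℝ :=
  ∑ i, |f (t i) - f (s i)| / l i

/-- The `Λ`-variation on `[a, b]`. -/
noncomputable def V (l : ℕ → ℝ) (a b : ℝ) (f : ℝ → ℝ) : ℝ≥0∞ :=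
  ⨆ (n : ℕ) (s : Fin n → ℝ) (t : Fin n → ℝ) (_ : IsFamily a b f s t),
    ENNReal.ofReal (sigma l f s t)

/-- The Wiener `Λ`-variation on `[a, b]`. -/
noncomputable def W (l : ℕ → ℝ) (a b : ℝ) (f : ℝ → ℝ) : ℝ≥0∞ :=
  ⨅ (δ : ℝ) (_ : 0 < δ), ⨆ (n : ℕ) (s : Fin n → ℝ) (t : Fin n → ℝ) (_ : IsFamily a b f s t)
    (_ : ∀ i, t i - s i ≤ δ), ENNReal.ofReal (sigma l f s t)

/-- `f ∈ ΛBV` -/
def LBV (l : ℕ → ℝ) (a b : ℝ) (f : ℝ → ℝ) : Prop := V l a b f ≠ ⊤

/-- `f ∈ CΛBV` -/
def CLBV (l : ℕ → ℝ) (a b : ℝ) (f : ℝ → ℝ) : Prop := LBV l a b f ∧ ContinuousOn f (Set.Icc a b)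

/-- `f ∈ ΛBV_c`, continuity in `Λ`-variation -/
def LBVc (l : ℕ → ℝ) (a b : ℝ) (f : ℝ → ℝ) : Prop :=
  LBV l a b f ∧ Tendsto (fun m : ℕ => V (fun i => l (i + m)) a b f) atTop (𝓝 0)

/-- `f ∈ ΛAC` -/
def LAC (l : ℕ → ℝ) (a b : ℝ) (f : ℝ → ℝ) : Prop := CLBV l a b f ∧ LBVc l a b f

/-- `f ∈ SΛBV`, i.e. `f` is `Λ`-singular -/
def Singular (l : ℕ → ℝ) (a b : ℝ) (f : ℝ → ℝ) : Prop :=
  CLBV l a b f ∧ ¬ LAC l a b f ∧ W l a b f = V l a b f

/-- The Shao-Sablin index. -/
noncomputable def shaoSablin (l : ℕ → ℝ) : ℝ :=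
  limsup (fun n : ℕ => (∑ i ∈ range (2 * n), 1 / l i) / ∑ i ∈ range n, 1 / l i) atTop

/-- The decomposition asked for in the problem. -/
def Decomposes (l : ℕ → ℝ) (a b : ℝ) (f : ℝ → ℝ) : Prop :=
  ∃ fs fac fj : ℝ → ℝ, (Singular l a b fs ∨ ∃ c : ℝ, ∀ x ∈ Set.Icc a b, fs x = c) ∧
    LAC l a b fac ∧ LBVc l a b fj ∧ (∀ x ∈ Set.Icc a b, f x = fs x + fac x + fj x) ∧
    V l a b f = V l a b fs + V l a b fac + W l a b fj

/-! ### Unsorted families -/

theorem sum_le_V_nat {l : ℕ → ℝ} (hl : IsLambda l) {a b : ℝ} {f : ℝ → ℝ} (hV : V l a b f ≠ ⊤)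
    (S : Finset ℕ) (s t : ℕ → ℝ) (h1 : ∀ i ∈ S, a ≤ s i ∧ s i < t i ∧ t i ≤ b)
    (h2 : ∀ i ∈ S, ∀ j ∈ S, i ≠ j → t i ≤ s j ∨ t j ≤ s i) :
    ∑ i ∈ S, |f (t i) - f (s i)| / l i ≤ (V l a b f).toReal := by
  classical
  set o := S.orderEmbOfFin rfl with ho
  have hoS : ∀ r, o r ∈ S := fun r => S.orderEmbOfFin_mem rfl r
  have hr : ∀ (k : ℕ) (hk : k < S.card), k ≤ o ⟨k, hk⟩ := by
    intro k
    induction k with
    | zero => intro _; exact Nat.zero_le _
    | succ k ih =>
      intro hk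
      have h3 := ih (Nat.lt_of_succ_lt hk)
      have h4 : o ⟨k, Nat.lt_of_succ_lt hk⟩ < o ⟨k + 1, hk⟩ := by
        apply o.strictMono
        exact Nat.lt_succ_self k
      omega
  set x : Fin S.card → ℝ := fun r => |f (t (o r)) - f (s (o r))| with hx
  set τ : Equiv.Perm (Fin S.card) := Tuple.sort (fun r => -x r) with hτ
  have hanti : Antitone (x ∘ τ) := by
    have := Tuple.monotone_sort (fun r => -x r)
    intro i j hij
    have h5 := this hij
    simp only [Function.comp_apply] at h5 ⊢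
    linarith
  have hfam : IsFamily a b f (fun r => s (o (τ r))) (fun r => t (o (τ r))) := by
    refine ⟨fun i => h1 _ (hoS _), fun i j hij => h2 _ (hoS _) _ (hoS _) ?_, hanti⟩
    intro h
    exact hij (τ.injective (o.injective h))
  have hle : ENNReal.ofReal (sigma l f (fun r => s (o (τ r))) (fun r => t (o (τ r)))) ≤ V l a b f :=
    le_iSup_of_le S.card (le_iSup_of_le _ (le_iSup_of_le _ (le_iSup_of_le hfam le_rfl)))
  have hle' : sigma l f (fun r => s (o (τ r))) (fun r => t (o (τ r))) ≤ (V l a b f).toReal :=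
    (ENNReal.ofReal_le_iff_le_toReal hV).mp hle
  refine le_trans ?_ hle'
  have e1 : ∑ i ∈ S, |f (t i) - f (s i)| / l i = ∑ r, x r / l (o r) := by
    conv_lhs => rw [← Finset.map_orderEmbOfFin_univ S rfl]
    rw [Finset.sum_map]
    rfl
  rw [e1]
  have hlanti : ∀ i j : ℕ, i ≤ j → 1 / l j ≤ 1 / l i := fun i j hij =>
    one_div_le_one_div_of_le (hl.pos i) (hl.mono hij)
  have hmono : Monovary (fun r : Fin S.card => 1 / l r) (x ∘ τ) := by
    have ha : Antitone (fun r : Fin S.card => 1 / l r) := fun i j hij => hlanti _ _ hij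
    exact ha.monovary hanti
  have h6 := hmono.sum_mul_comp_perm_le_sum_mul (σ := τ⁻¹)
  calc ∑ r, x r / l (o r) ≤ ∑ r : Fin S.card, 1 / l r * x r := by
        refine Finset.sum_le_sum fun r _ => ?_
        have h7 := hlanti _ _ (hr r.1 r.2)
        have h8 : 0 ≤ x r := abs_nonneg _
        calc x r / l (o r) = 1 / l (o r) * x r := by ring
          _ ≤ 1 / l r * x r := mul_le_mul_of_nonneg_right h7 h8
    _ = ∑ r : Fin S.card, 1 / l r * (x ∘ τ) (τ⁻¹ r) := by
        refine Finset.sum_congr rfl fun r _ => ?_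
        simp
    _ ≤ ∑ r : Fin S.card, 1 / l r * (x ∘ τ) r := h6
    _ = sigma l f (fun r => s (o (τ r))) (fun r => t (o (τ r))) := by
        refine Finset.sum_congr rfl fun r _ => ?_
        simp only [hx, Function.comp_apply]
        ring

theorem sum_le_V {l : ℕ → ℝ} (hl : IsLambda l) {a b : ℝ} {f : ℝ → ℝ} (hV : V l a b f ≠ ⊤)
    {ι : Type} [Nonempty ι] (S : Finset ι) (ρ : ι → ℕ) (hρ : Set.InjOn ρ S) (s t : ι → ℝ)
    (h1 : ∀ i ∈ S, a ≤ s i ∧ s i < t i ∧ t i ≤ b)
    (h2 : ∀ i ∈ S, ∀ j ∈ S, i ≠ j → t i ≤ s j ∨ t j ≤ s i) :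
    ∑ i ∈ S, |f (t i) - f (s i)| / l (ρ i) ≤ (V l a b f).toReal := by
  classical
  set inv := Function.invFunOn ρ (S : Set ι) with hinv
  have hi : ∀ i ∈ S, inv (ρ i) = i := fun i hiS => hρ.leftInvOn_invFunOn hiS
  have h := sum_le_V_nat hl hV (S.image ρ) (fun k => s (inv k)) (fun k => t (inv k))
    (by
      intro k hk
      obtain ⟨i, hiS, rfl⟩ := Finset.mem_image.mp hk
      simp only [hi i hiS]
      exact h1 i hiS)
    (by
      intro k hk k' hk' hne
      obtain ⟨i, hiS, rfl⟩ := Finset.mem_image.mp hk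
      obtain ⟨j, hjS, rfl⟩ := Finset.mem_image.mp hk'
      simp only [hi i hiS, hi j hjS]
      exact h2 i hiS j hjS (fun h => hne (by rw [h])))
  rw [Finset.sum_image hρ] at h
  refine le_trans (le_of_eq ?_) h
  refine Finset.sum_congr rfl fun i hiS => ?_
  simp only [hi i hiS]

/-! ### Fine families -/

/-- the modulus of continuity -/
theorem exists_delta {a b : ℝ} {f : ℝ → ℝ} (hf : ContinuousOn f (Set.Icc a b)) {η : ℝ}
    (hη : 0 < η) : ∃ δ > 0, ∀ x ∈ Set.Icc a b, ∀ y ∈ Set.Icc a b, |x - y| ≤ δ → |f x - f y| ≤ η := by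
  have hu := isCompact_Icc.uniformContinuousOn_of_continuous hf
  rw [Metric.uniformContinuousOn_iff] at hu
  obtain ⟨δ, hδ, h⟩ := hu η hη
  refine ⟨δ / 2, by positivity, fun x hx y hy hxy => ?_⟩
  have := h x hx y hy (by rw [Real.dist_eq]; linarith)
  rw [Real.dist_eq] at this
  exact this.le

theorem exists_fine {l : ℕ → ℝ} {a b : ℝ} {f : ℝ → ℝ} (hV : V l a b f ≠ ⊤)
    (hW : W l a b f = V l a b f) {ε δ : ℝ} (hε : 0 < ε) (hδ : 0 < δ) :
    ∃ (n : ℕ) (s t : Fin n → ℝ), IsFamily a b f s t ∧ (∀ i, t i - s i ≤ δ) ∧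
      (V l a b f).toReal - ε < sigma l f s t := by
  by_cases hneg : (V l a b f).toReal - ε < 0
  · refine ⟨0, Fin.elim0, Fin.elim0, ⟨fun i => i.elim0, fun i => i.elim0, fun i => i.elim0⟩,
      fun i => i.elim0, ?_⟩
    simpa [sigma] using hneg
  · push Not at hneg
    have h1 : ENNReal.ofReal ((V l a b f).toReal - ε) < V l a b f := by
      conv_rhs => rw [← ENNReal.ofReal_toReal hV]
      rw [ENNReal.ofReal_lt_ofReal_iff (by linarith)]
      linarith
    rw [← hW] at h1
    have h2 : W l a b f ≤ ⨆ (n : ℕ) (s : Fin n → ℝ) (t : Fin n → ℝ) (_ : IsFamily a b f s t)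
        (_ : ∀ i, t i - s i ≤ δ), ENNReal.ofReal (sigma l f s t) :=
      iInf_le_of_le δ (iInf_le_of_le hδ le_rfl)
    have h3 := lt_of_lt_of_le h1 h2
    simp only [lt_iSup_iff] at h3
    obtain ⟨n, s, t, hfam, hmesh, h4⟩ := h3
    refine ⟨n, s, t, hfam, hmesh, ?_⟩
    rw [hW] at h4
    exact (ENNReal.ofReal_lt_ofReal_iff_of_nonneg hneg).mp h4

/-! ### The total variation is finite -/

theorem one_interval {l : ℕ → ℝ} (hl : IsLambda l) {a b : ℝ} {f : ℝ → ℝ} (hV : V l a b f ≠ ⊤)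
    {n : ℕ} {s t : Fin n → ℝ} (hfam : IsFamily a b f s t) {η ε : ℝ} (hη : 0 ≤ η)
    (hsmall : ∀ i, |f (t i) - f (s i)| ≤ η) (hσ : (V l a b f).toReal - ε < sigma l f s t)
    {p q : ℝ} (hp : a ≤ p) (hpq : p < q) (hq : q ≤ b) :
    |f q - f p| / l 0 ≤ ε + η / l 0 +
      ∑ i ∈ univ.filter (fun i => s i < q ∧ p < t i), |f (t i) - f (s i)| / l i := by
  classical
  set A := univ.filter (fun i : Fin n => s i < q ∧ p < t i) with hA
  set R := univ.filter (fun i : Fin n => ¬ (s i < q ∧ p < t i)) with hR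
  have key := sum_le_V hl hV (insertNone R)
    (fun o => o.elim 0 (fun i : Fin n => i.1 + 1))
    (by
      intro x _ y _ hxy
      cases x <;> cases y <;> simp_all
      exact Fin.ext hxy)
    (fun o => o.elim p s) (fun o => o.elim q t)
    (by
      intro o _
      cases o with
      | none => exact ⟨hp, hpq, hq⟩
      | some i => exact hfam.sub i)
    (by
      intro x hx y hy hxy
      cases x with
      | none =>
        cases y with
        | none => exact absurd rfl hxy
        | some j =>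
          have hj : ¬ (s j < q ∧ p < t j) := by
            have := Finset.some_mem_insertNone.mp hy
            rw [hR, Finset.mem_filter] at this
            exact this.2
          simp only [Option.elim]
          by_contra hcon
          push Not at hcon
          exact hj ⟨hcon.1, hcon.2⟩
      | some i =>
        have hi : ¬ (s i < q ∧ p < t i) := by
          have := Finset.some_mem_insertNone.mp hx
          rw [hR, Finset.mem_filter] at this
          exact this.2
        cases y with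
        | none =>
          simp only [Option.elim]
          by_contra hcon
          push Not at hcon
          exact hi ⟨hcon.2, hcon.1⟩
        | some j =>
          simp only [Option.elim]
          exact hfam.nonoverlap i j (fun h => hxy (by rw [h])))
  rw [Finset.sum_insertNone] at key
  simp only [Option.elim] at key
  -- total sum
  have hsplit : sigma l f s t = ∑ i ∈ A, |f (t i) - f (s i)| / l i
      + ∑ i ∈ R, |f (t i) - f (s i)| / l i := by
    rw [sigma, hA, hR, Finset.sum_filter_add_sum_filter_not]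
  have htel : ∑ i ∈ R, |f (t i) - f (s i)| / l i
      ≤ ∑ i ∈ R, |f (t i) - f (s i)| / l (i.1 + 1) + η / l 0 := by
    have h1 : ∀ i : Fin n, |f (t i) - f (s i)| / l i ≤ |f (t i) - f (s i)| / l (i.1 + 1)
        + η * (1 / l i - 1 / l (i.1 + 1)) := by
      intro i
      have h2 : 0 ≤ 1 / l i - 1 / l (i.1 + 1) := by
        have := one_div_le_one_div_of_le (hl.pos i) (hl.mono (Nat.le_succ i.1))
        linarith
      have h3 := mul_le_mul_of_nonneg_right (hsmall i) h2
      have h4 : |f (t i) - f (s i)| / l i = |f (t i) - f (s i)| / l (i.1 + 1)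
          + |f (t i) - f (s i)| * (1 / l i - 1 / l (i.1 + 1)) := by ring
      rw [h4]
      linarith
    have h5 : ∑ i ∈ R, |f (t i) - f (s i)| / l i ≤ ∑ i ∈ R, |f (t i) - f (s i)| / l (i.1 + 1)
        + ∑ i ∈ R, η * (1 / l i - 1 / l (i.1 + 1)) := by
      rw [← Finset.sum_add_distrib]
      exact Finset.sum_le_sum fun i _ => h1 i
    have h6 : ∑ i ∈ R, η * (1 / l i - 1 / l (i.1 + 1))
        ≤ ∑ i : Fin n, η * (1 / l i - 1 / l (i.1 + 1)) := by
      refine Finset.sum_le_univ_sum_of_nonneg fun i => mul_nonneg hη ?_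
      have := one_div_le_one_div_of_le (hl.pos i) (hl.mono (Nat.le_succ i.1))
      linarith
    have h7 : ∑ i : Fin n, η * (1 / l i - 1 / l (i.1 + 1)) = η * (1 / l 0 - 1 / l n) := by
      rw [← Finset.mul_sum, Fin.sum_univ_eq_sum_range (fun i => 1 / l i - 1 / l (i + 1)),
        Finset.sum_range_sub']
    have h8 : η * (1 / l 0 - 1 / l n) ≤ η / l 0 := by
      have h9 : 0 < 1 / l n := one_div_pos.mpr (hl.pos n)
      have h10 : η * (1 / l 0 - 1 / l n) ≤ η * (1 / l 0) :=
        mul_le_mul_of_nonneg_left (by linarith) hη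
      calc η * (1 / l 0 - 1 / l n) ≤ η * (1 / l 0) := h10
        _ = η / l 0 := by ring
    linarith
  linarith

theorem variation_le {l : ℕ → ℝ} (hl : IsLambda l) {a b : ℝ} {f : ℝ → ℝ} (hV : V l a b f ≠ ⊤)
    (hf : ContinuousOn f (Set.Icc a b)) (hW : W l a b f = V l a b f) {N : ℕ}
    (p q : Fin N → ℝ) (h1 : ∀ i, a ≤ p i ∧ p i < q i ∧ q i ≤ b)
    (h2 : ∀ i j, i ≠ j → q i ≤ p j ∨ q j ≤ p i) :
    ∑ k, |f (q k) - f (p k)| ≤ l 0 * ((V l a b f).toReal + 1) := by
  classical
  have hl0 := hl.pos 0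
  set v := (V l a b f).toReal with hv
  set ε : ℝ := 1 / (2 * (N + 1)) with hε
  have hεpos : 0 < ε := by positivity
  set η : ℝ := l 0 * ε / 2 with hη
  have hηpos : 0 < η := by positivity
  obtain ⟨δ, hδ, hmod⟩ := exists_delta hf hηpos
  obtain ⟨n, s, t, hfam, hmesh, hσ⟩ := exists_fine hV hW hεpos hδ
  have hsmall : ∀ i, |f (t i) - f (s i)| ≤ η := by
    intro i
    obtain ⟨g1, g2, g3⟩ := hfam.sub i
    refine hmod _ ⟨by linarith, g3⟩ _ ⟨g1, by linarith⟩ ?_
    rw [abs_of_pos (by linarith)]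
    exact hmesh i
  set x : Fin n → ℝ := fun i => |f (t i) - f (s i)| / l i with hx
  have hxnn : ∀ i, 0 ≤ x i := fun i => div_nonneg (abs_nonneg _) (hl.pos i).le
  have hxle : ∀ i, x i ≤ η / l 0 := fun i => by
    have h3 : l 0 ≤ l i := hl.mono (Nat.zero_le _)
    calc x i ≤ η / l i := div_le_div_of_nonneg_right (hsmall i) (hl.pos i).le
      _ ≤ η / l 0 := div_le_div_of_nonneg_left hηpos.le hl0 h3
  set B : Fin N → Finset (Fin n) := fun k => univ.filter (fun i => p k ≤ s i ∧ s i < q k) with hB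
  set C : Fin N → Finset (Fin n) := fun k => univ.filter (fun i => s i < p k ∧ p k < t i) with hC
  have hCcard : ∀ k, (C k).card ≤ 1 := by
    intro k
    rw [Finset.card_le_one]
    intro i hi j hj
    rw [hC, Finset.mem_filter] at hi hj
    by_contra hij
    rcases hfam.nonoverlap i j hij with h | h
    · linarith [hi.2.2, hj.2.1]
    · linarith [hj.2.2, hi.2.1]
  have hone : ∀ k, |f (q k) - f (p k)| / l 0 ≤ ε + η / l 0 + (∑ i ∈ B k, x i + η / l 0) := by
    intro k
    have h3 := one_interval hl hV hfam hηpos.le hsmall hσ (h1 k).1 (h1 k).2.1 (h1 k).2.2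
    refine h3.trans (add_le_add_right ?_ _)
    have hsub : univ.filter (fun i => s i < q k ∧ p k < t i) ⊆ B k ∪ C k := by
      intro i hi
      rw [Finset.mem_filter] at hi
      rw [Finset.mem_union, hB, hC, Finset.mem_filter, Finset.mem_filter]
      rcases le_or_gt (p k) (s i) with h | h
      · exact Or.inl ⟨Finset.mem_univ _, h, hi.2.1⟩
      · exact Or.inr ⟨Finset.mem_univ _, h, hi.2.2⟩
    have h4 : ∑ i ∈ univ.filter (fun i => s i < q k ∧ p k < t i), x i
        ≤ ∑ i ∈ B k ∪ C k, x i :=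
      Finset.sum_le_sum_of_subset_of_nonneg hsub fun i _ _ => hxnn i
    have h5 : ∑ i ∈ B k ∪ C k, x i ≤ ∑ i ∈ B k, x i + ∑ i ∈ C k, x i := by
      rw [← Finset.sum_union_inter]
      have : 0 ≤ ∑ i ∈ B k ∩ C k, x i := Finset.sum_nonneg fun i _ => hxnn i
      linarith
    have h6 : ∑ i ∈ C k, x i ≤ η / l 0 := by
      calc ∑ i ∈ C k, x i ≤ (C k).card • (η / l 0) :=
            Finset.sum_le_card_nsmul _ _ _ fun i _ => hxle i
        _ ≤ 1 • (η / l 0) := nsmul_le_nsmul_left (by positivity) (hCcard k)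
        _ = η / l 0 := one_nsmul _
    linarith
  have hBdisj : ∀ k k', k ≠ k' → Disjoint (B k) (B k') := by
    intro k k' hkk
    rw [Finset.disjoint_left]
    intro i hi hi'
    rw [hB, Finset.mem_filter] at hi hi'
    rcases h2 k k' hkk with h | h
    · linarith [hi.2.2, hi'.2.1]
    · linarith [hi'.2.2, hi.2.1]
  have hBsum : ∑ k, ∑ i ∈ B k, x i ≤ v := by
    rw [← Finset.sum_biUnion (fun k _ k' _ hkk => hBdisj k k' hkk)]
    refine (Finset.sum_le_univ_sum_of_nonneg hxnn).trans ?_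
    have hle : ENNReal.ofReal (sigma l f s t) ≤ V l a b f :=
      le_iSup_of_le n (le_iSup_of_le _ (le_iSup_of_le _ (le_iSup_of_le hfam le_rfl)))
    exact (ENNReal.ofReal_le_iff_le_toReal hV).mp hle
  have htot : ∑ k, |f (q k) - f (p k)| / l 0 ≤ v + 1 := by
    calc ∑ k, |f (q k) - f (p k)| / l 0
        ≤ ∑ k, (ε + η / l 0 + (∑ i ∈ B k, x i + η / l 0)) := Finset.sum_le_sum fun k _ => hone k
      _ = ∑ k, ∑ i ∈ B k, x i + N * (ε + 2 * (η / l 0)) := by
          simp only [Finset.sum_add_distrib, Finset.sum_const, Finset.card_univ, Fintype.card_fin,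
            nsmul_eq_mul]
          ring
      _ ≤ v + 1 := by
          have h3 : η / l 0 = ε / 2 := by
            rw [hη]; field_simp
          have h4 : (N : ℝ) * (ε + 2 * (η / l 0)) ≤ 1 := by
            rw [h3, hε]
            have : (N : ℝ) * (1 / (2 * (N + 1)) + 2 * (1 / (2 * (N + 1)) / 2)) = N / (N + 1) := by
              field_simp
              ring
            rw [this, div_le_one (by positivity)]
            linarith
          linarith
  rw [← Finset.sum_div, div_le_iff₀ hl0] at htot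
  linarith

theorem V_eq_zero {l : ℕ → ℝ} (hl : IsProper l) {a b : ℝ} {f : ℝ → ℝ} (hV : V l a b f ≠ ⊤)
    (hf : ContinuousOn f (Set.Icc a b)) (hW : W l a b f = V l a b f) : V l a b f = 0 := by
  by_contra hne
  have hv : 0 < (V l a b f).toReal := ENNReal.toReal_pos hne hV
  set v := (V l a b f).toReal with hvdef
  have hl0 := hl.1.pos 0
  set K := l 0 * (v + 1) with hK
  have hKpos : 0 < K := by positivity
  obtain ⟨m, hm⟩ := (hl.2.eventually_ge_atTop (4 * K / v)).exists
  have hlm : K / l m ≤ v / 4 := by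
    rw [div_le_iff₀ (hl.1.pos m)]
    rw [div_le_iff₀ hv] at hm
    linarith
  set η := v * l 0 / (4 * (m + 1)) with hη
  have hηpos : 0 < η := by positivity
  obtain ⟨δ, hδ, hmod⟩ := exists_delta hf hηpos
  obtain ⟨n, s, t, hfam, hmesh, hσ⟩ := exists_fine hV hW (ε := v / 4) (by positivity) hδ
  have hsmall : ∀ i, |f (t i) - f (s i)| ≤ η := by
    intro i
    obtain ⟨g1, g2, g3⟩ := hfam.sub i
    refine hmod _ ⟨by linarith, g3⟩ _ ⟨g1, by linarith⟩ ?_
    rw [abs_of_pos (by linarith)]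
    exact hmesh i
  have hvar := variation_le hl.1 hV hf hW s t hfam.sub hfam.nonoverlap
  have hterm : ∀ i : Fin n, |f (t i) - f (s i)| / l i
      ≤ (if i.1 < m then η / l 0 else 0) + |f (t i) - f (s i)| / l m := by
    intro i
    have h0 : 0 ≤ |f (t i) - f (s i)| / l m := div_nonneg (abs_nonneg _) (hl.1.pos m).le
    split_ifs with h
    · have h3 : l 0 ≤ l i := hl.1.mono (Nat.zero_le _)
      have : |f (t i) - f (s i)| / l i ≤ η / l 0 := by
        calc |f (t i) - f (s i)| / l i ≤ η / l i :=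
              div_le_div_of_nonneg_right (hsmall i) (hl.1.pos i).le
          _ ≤ η / l 0 := div_le_div_of_nonneg_left hηpos.le hl0 h3
      linarith
    · rw [zero_add]
      exact div_le_div_of_nonneg_left (abs_nonneg _) (hl.1.pos m) (hl.1.mono (not_lt.mp h))
  have hsum : sigma l f s t ≤ m * (η / l 0) + K / l m := by
    calc sigma l f s t ≤ ∑ i : Fin n, ((if i.1 < m then η / l 0 else 0)
          + |f (t i) - f (s i)| / l m) := Finset.sum_le_sum fun i _ => hterm i
      _ = ∑ i : Fin n, (if i.1 < m then η / l 0 else 0)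
          + (∑ i, |f (t i) - f (s i)|) / l m := by
          rw [Finset.sum_add_distrib, Finset.sum_div]
      _ ≤ m * (η / l 0) + K / l m := by
          refine add_le_add ?_ (div_le_div_of_nonneg_right hvar (hl.1.pos m).le)
          rw [Fin.sum_univ_eq_sum_range (fun i => if i < m then η / l 0 else 0),
            ← Finset.sum_filter, Finset.sum_const, nsmul_eq_mul]
          refine mul_le_mul_of_nonneg_right ?_ (by positivity)
          have : (Finset.range n).filter (fun i => i < m) ⊆ Finset.range m := by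
            intro i hi
            rw [Finset.mem_filter] at hi
            exact Finset.mem_range.mpr hi.2
          calc (((Finset.range n).filter (fun i => i < m)).card : ℝ)
              ≤ ((Finset.range m).card : ℝ) := by exact_mod_cast Finset.card_le_card this
            _ = m := by rw [Finset.card_range]
  have h4 : (m : ℝ) * (η / l 0) ≤ v / 4 := by
    have : (m : ℝ) * (η / l 0) = (m / (m + 1)) * (v / 4) := by
      rw [hη]; field_simp
    rw [this]
    have h5 : (m : ℝ) / (m + 1) ≤ 1 := by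
      rw [div_le_one (by positivity)]; linarith
    calc (m : ℝ) / (m + 1) * (v / 4) ≤ 1 * (v / 4) :=
          mul_le_mul_of_nonneg_right h5 (by positivity)
      _ = v / 4 := one_mul _
  linarith

theorem V_shift_le {l : ℕ → ℝ} (hl : IsLambda l) (a b : ℝ) (f : ℝ → ℝ) (m : ℕ) :
    V (fun i => l (i + m)) a b f ≤ V l a b f := by
  unfold V
  refine iSup_mono fun n => iSup_mono fun s => iSup_mono fun t => iSup_mono fun _ => ?_
  refine ENNReal.ofReal_le_ofReal (Finset.sum_le_sum fun i _ => ?_)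
  exact div_le_div_of_nonneg_left (abs_nonneg _) (hl.pos i) (hl.mono (Nat.le_add_right _ _))

/-- **No `Λ`-singular functions.** -/
theorem no_singular {l : ℕ → ℝ} (hl : IsProper l) (a b : ℝ) (f : ℝ → ℝ) : ¬ Singular l a b f := by
  rintro ⟨⟨hV, hf⟩, hac, hW⟩
  have h0 := V_eq_zero hl hV hf hW
  refine hac ⟨⟨hV, hf⟩, hV, ?_⟩
  have : (fun m : ℕ => V (fun i => l (i + m)) a b f) = fun _ => 0 := by
    funext m
    have := V_shift_le hl.1 a b f m
    rw [h0] at this
    exact le_antisymm this bot_le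
  rw [this]
  exact tendsto_const_nhds

theorem constant_of_W_eq_V {l : ℕ → ℝ} (hl : IsProper l) {a b : ℝ} {f : ℝ → ℝ}
    (hf : CLBV l a b f) (hW : W l a b f = V l a b f) : ∀ x ∈ Set.Icc a b, f x = f a := by
  intro x hx
  have h0 := V_eq_zero hl hf.1 hf.2 hW
  rcases hx.1.eq_or_lt with rfl | hlt
  · rfl
  have h := sum_le_V_nat hl.1 hf.1 {0} (fun _ => a) (fun _ => x)
    (fun i _ => ⟨le_rfl, hlt, hx.2⟩)
    (fun i hi j hj hij => by
      rw [Finset.mem_singleton] at hi hj
      exact absurd (hi.trans hj.symm) hij)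
  rw [Finset.sum_singleton, h0, ENNReal.toReal_zero] at h
  have h1 : |f x - f a| ≤ 0 := by
    have := (div_le_iff₀ (hl.1.pos 0)).mp h
    simpa using this
  have h2 := abs_eq_zero.mp (le_antisymm h1 (abs_nonneg _))
  linarith

/-- **Theorem.** (1) For every proper `Λ`-sequence, in particular when the Shao-Sablin index is
`2`, there are no `Λ`-singular functions: `SΛBV = ∅`; more precisely, a continuous `f ∈ ΛBV` with
`W_Λ(f) = V_Λ(f)` is constant on `[a, b]`. (2) The statement of Q1. -/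
theorem result :
    (∀ l : ℕ → ℝ, IsProper l → ∀ a b : ℝ, a < b → {f | Singular l a b f} = ∅) ∧
    (∀ l : ℕ → ℝ, IsProper l → ∀ a b : ℝ, a < b → ∀ f, CLBV l a b f → W l a b f = V l a b f →
      V l a b f = 0 ∧ ∀ x ∈ Set.Icc a b, f x = f a) ∧
    (∀ l : ℕ → ℝ, IsProper l → shaoSablin l = 2 → ∀ a b : ℝ, a < b →
      {f | Singular l a b f}.Nonempty → ∀ f, LBV l a b f → Decomposes l a b f) := by
  refine ⟨fun l hl a b _ => ?_, fun l hl a b _ f hf hW => ?_, fun l hl _ a b _ hne => ?_⟩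
  · ext f
    exact ⟨fun h => no_singular hl a b f h, fun h => h.elim⟩
  · exact ⟨V_eq_zero hl hf.1 hf.2 hW, constant_of_W_eq_V hl hf hW⟩
  · obtain ⟨f, hf⟩ := hne
    exact absurd hf (no_singular hl a b f)

end Pool.Agent.Results.MP_2872ab_an.NoSingularFunctions
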